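import Pool.Agent.Helper76.S7.Defs

/-!
# Project W7 (level `7^n`): plane functions and the upper bound for new symbols

`μ = 0`: the plane is `Γ \ Γ₀(7)`, `μ = 1`: `Γ \ {(a b; c d) | 7 ∣ b, 7 ∣ c}`. Models: the modules of project W5 with the same names (`Pool/Agent/*/W5/M_PlA.lean`, ..., statements in
`Pool/Agent/Helper14/W5/StC.lean`). Upper bound: for odd exponents the extended group (`W`, `*`) is generated by the reflections in the sides of a quadrilateral with the cusp `∞`, two right angles and one angle `π/3`;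
for even exponents (`S`, `*`) the quotient has the cusps `∞, 1, 2, 3` on the mirrors, two right angles, one angle `π/3`, and one inner point of order two (`δ = (7 -10; 5 -7)`). All relations and dimensions below were
checked by machine (`m = 1`: `subO7` has dimension `15`, `subE7` dimension `81`).
-/

set_option autoImplicit false

namespace Pool.Agent.Helper76.S7

open Pool.Agent.Helper14.CV (Homog EqC act Tl StFar StFex)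
open Pool.Agent.Helper28.WK (SymP Tw evw Ok)
open Pool.Agent.Helper14.W5

/-- The matrix `(a, 7^μ b; 7 c, d)` has determinant one and plane coordinates `(x, y)`, that is
`b = x a` modulo `q` and `c = y d` modulo `q'`. -/
def Pl7 (μ : ℕ) {q q' : ℕ} (a b c d : ℤ) (x : ZMod q) (y : ZMod q') : Prop :=
  a * d - 7 ^ (μ + 1) * b * c = 1 ∧ (b : ZMod q) = x * a ∧ (c : ZMod q') = y * d

/-- The entry `Y` of the standard matrix `(1, 7^μ X; 7 Y, 1 + 7^(μ+1) X Y)`, `X = x.val`, with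
coordinates `(x, y)`. -/
noncomputable def rY7 (μ : ℕ) {q q' : ℕ} (x : ZMod q) (y : ZMod q') : ℤ :=
  ((y * (1 - 7 ^ (μ + 1) * ((x.val : ℕ) : ZMod q') * y)⁻¹).val : ℤ)

/-- The value of the symbol of `G` on the path from `g v` to `g u` (`u = (u1,u2)`, `v = (v1,v2)`),
where `g` is the standard matrix with plane coordinates `(x, y)`. -/
noncomputable def edge7 {R : Type} [AddCommGroup R] (μ : ℕ) {q q' : ℕ} (u1 u2 v1 v2 : ℤ)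
    (G : ℤ → ℤ → R) (x : ZMod q) (y : ZMod q') : R :=
  G (u1 + 7 ^ μ * (x.val : ℤ) * u2) (7 * rY7 μ x y * u1 + (1 + 7 ^ (μ + 1) * (x.val : ℤ) * rY7 μ x y) * u2)
  - G (v1 + 7 ^ μ * (x.val : ℤ) * v2) (7 * rY7 μ x y * v1 + (1 + 7 ^ (μ + 1) * (x.val : ℤ) * rY7 μ x y) * v2)

/-- PLA. The standard matrix has the right coordinates. (`1 - 7^(μ+1) X y` is a unit of
`ZMod (7^s)`; `Y = y (1 - 7^(μ+1) X y)⁻¹` satisfies `Y = y (1 + 7^(μ+1) X Y)`.) Model `S5PlA`. -/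
def S7PlA : Prop := ∀ (μ r s : ℕ) (x : ZMod (7 ^ r)) (y : ZMod (7 ^ s)),
  Pl7 μ 1 (x.val : ℤ) (rY7 μ x y) (1 + 7 ^ (μ + 1) * (x.val : ℤ) * rY7 μ x y) x y

/-- PLU. Two matrices with the same coordinates differ by an element
`(α β; γ δ)` with `7^(r+μ) ∣ β`, `7^(s+1) ∣ γ` on the left: `(α β; γ δ) = g' g⁻¹`,
`β = 7^μ (a b' - a' b)`, `γ = 7 (c' d - c d')`. Model `S5PlU`. -/
def S7PlU : Prop := ∀ (μ r s : ℕ) (x : ZMod (7 ^ r)) (y : ZMod (7 ^ s)) (a b c d a' b' c' d' : ℤ),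
  Pl7 μ a b c d x y → Pl7 μ a' b' c' d' x y → ∃ α β γ δ : ℤ, α * δ - β * γ = 1 ∧
    (7 : ℤ) ^ (r + μ) ∣ β ∧ (7 : ℤ) ^ (s + 1) ∣ γ ∧
    a' = α * a + β * (7 * c) ∧ 7 ^ μ * b' = α * (7 ^ μ * b) + β * d ∧
    7 * c' = γ * a + δ * (7 * c) ∧ d' = γ * (7 ^ μ * b) + δ * d

/-- EDG (from PLA, PLU). For a symbol `G` the value on the path from `g v` to `g u` depends only on the plane
coordinates of `g`: it is `edge7`. Model `S5Edg`. -/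
def S7Edg : Prop := ∀ (R : Type) (_ : AddCommGroup R) (μ r s : ℕ) (G : ℤ → ℤ → R),
  SymP 7 (r + μ) (s + 1) G → ∀ (u1 u2 v1 v2 : ℤ), (u1 ≠ 0 ∨ u2 ≠ 0) → (v1 ≠ 0 ∨ v2 ≠ 0) →
  ∀ (x : ZMod (7 ^ r)) (y : ZMod (7 ^ s)) (a b c d : ℤ), Pl7 μ a b c d x y →
  edge7 μ u1 u2 v1 v2 G x y = G (a * u1 + 7 ^ μ * b * u2) (7 * c * u1 + d * u2) -
    G (a * v1 + 7 ^ μ * b * v2) (7 * c * v1 + d * v2)

/-- Balanced new symbols, even exponent `n = 2k`. -/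
def BalE7 (k : ℕ) (G : ℤ → ℤ → ℂ) : Prop :=
  SymP 7 k k G ∧ EqC (∑ i ∈ Finset.range 7, act 1 (i * 7 ^ (k - 1)) 0 1 G) 0 ∧
    EqC (∑ i ∈ Finset.range 7, act 1 0 (i * 7 ^ (k - 1)) 1 G) 0 ∧
    EqC (act 0 (-1) 1 0 G) (-G) ∧ EqC (act (-1) 0 0 1 G) G

/-- Balanced new symbols, odd exponent `n = 2k+1`. -/
def BalO7 (k : ℕ) (G : ℤ → ℤ → ℂ) : Prop :=
  SymP 7 k (k + 1) G ∧ EqC (∑ i ∈ Finset.range 7, act 1 (i * 7 ^ (k - 1)) 0 1 G) 0 ∧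
    EqC (∑ i ∈ Finset.range 7, act 1 0 (i * 7 ^ k) 1 G) 0 ∧
    EqC (act 0 (-1) 7 0 G) (-G) ∧ EqC (act (-1) 0 0 1 G) G

/-- BAL. Transport to the balanced form by `(1 0; 0 7^k)` (matrix identities up to scalars, model `S5Bal`, module `Pool/Agent/Helper42/W5/M_Bal.lean`; for instance `(7 i; 0 7) (1 0; 0 7^k) = 7 (1 0; 0 7^k) (1 i7^(k-1); 0 1)`,
`(1 0; i7^(n-1) 1) (1 0; 0 7^k) = (1 0; 0 7^k) (1 0; i7^(n-1-k) 1)`, `(0 -1; 7^(2k) 0) (1 0; 0 7^k) = 7^k (1 0; 0 7^k) (0 -1; 1 0)`, `(0 -1; 7^(2k+1) 0) (1 0; 0 7^k) = 7^k (1 0; 0 7^k) (0 -1; 7 0)`;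
`act M (act M' G) = act (M' M) G`). -/
def S7Bal : Prop := ∀ (k : ℕ) (G : ℤ → ℤ → ℂ), 1 ≤ k →
  (NewSymP 7 (2 * k) G → BalE7 k (act 1 0 0 (7 ^ k) G)) ∧
  (NewSymP 7 (2 * k + 1) G → BalO7 k (act 1 0 0 (7 ^ k) G)) ∧
  (Homog G → EqC (act 1 0 0 (7 ^ k) G) 0 → EqC G 0)

/-- Representatives of the 56 classes `Γ' \ SL₂(ℤ)`, `Γ' = {(a b; c d) | 7 ∣ b, 7 ∣ c}`. -/
def rep49 : List (ℤ × ℤ × ℤ × ℤ) :=
   [(1, 0, 0, 1), (0, 1, -1, 0), (1, 0, -1, 1), (1, -1, 0, 1), (1, 1, 0, 1), (1, 0, 1, 1), (1, 1, -1, 0), (1, -1, 1, 0), (0, 1, -1, 1), (0, 1, -1, -1), (2, 1, -1, 0), (1, 2, 0, 1), 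
    (2, -1, 1, 0), (1, -2, 0, 1), (1, 0, 2, 1), (1, 0, -2, 1), (0, 1, -1, -2), (0, 1, -1, 2), (2, 1, 1, 1), (1, 1, 1, 2), (2, -1, -1, 1), (1, -1, -1, 2), (1, 2, -1, -1), 
    (1, 1, -2, -1), (1, -1, 2, -1), (1, -2, 1, -1), (1, 0, 3, 1), (1, 0, -3, 1), (0, 1, -1, -3), (0, 1, -1, 3), (3, 1, -1, 0), (3, -1, 1, 0), (1, 3, 0, 1), (1, -3, 0, 1), 
    (1, -1, 3, -2), (1, 1, -3, -2), (1, -1, -2, 3), (2, 3, -1, -1), (3, -1, -2, 1), (3, 2, 1, 1), (2, -1, 3, -1), (2, 1, -3, -1), (3, -2, -1, 1), (3, 1, 2, 1), (2, -3, 1, -1), 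
    (1, 1, 2, 3), (2, 3, 1, 2), (2, -3, -1, 2), (3, 2, -2, -1), (3, -2, 2, -1), (4, 3, 1, 1), (4, -3, -1, 1), (5, 3, -2, -1), (5, -3, 2, -1), (3, -5, -1, 2), (3, 5, 1, 2)]

/-- REP. Every matrix of `SL₂(ℤ)` is `g' m` with `g' = (α 7β; 7γ δ)` and `m = (m1 m2; m3 m4)` in the list. Proof: `g' = g m⁻¹` has the off-diagonal entries `b m1 - a m2` and `c m4 - d m3`, and modulo `7` there is an `m` in the list for
which both vanish (a finite check: `decide` on residues `a, b, c, d` in `ZMod 7` with `a d - b c = 1`; `b m1 = a m2` says that the first rows are proportional, `c m4 = d m3` the second rows). -/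
def S7Rep : Prop := (∀ m ∈ rep49, m.1 * m.2.2.2 - m.2.1 * m.2.2.1 = 1) ∧
  ∀ a b c d : ℤ, a * d - b * c = 1 → ∃ m ∈ rep49, ∃ α β γ δ : ℤ, α * δ - 49 * β * γ = 1 ∧
    a = α * m.1 + 7 * β * m.2.2.1 ∧ b = α * m.2.1 + 7 * β * m.2.2.2 ∧
    c = 7 * γ * m.1 + δ * m.2.2.1 ∧ d = 7 * γ * m.2.1 + δ * m.2.2.2

/-! ### Functions on the plane `(ZMod (7^m))²` -/

/-- The plane. -/
abbrev Pt (m : ℕ) : Type := ZMod (7 ^ m) × ZMod (7 ^ m)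

/-- Right translation by `(a 7^μ b; 7c d)`, on points: `(x, y) ↦ ((b + d x)/(a + 7^(μ+1) c x), (c + a y)/(d + 7^(μ+1) b y))`. -/
def trp (μ : ℕ) (a b c d : ℤ) {m : ℕ} (p : Pt m) : Pt m :=
  (((b : ZMod (7 ^ m)) + d * p.1) * ((a : ZMod (7 ^ m)) + 7 ^ (μ + 1) * c * p.1)⁻¹,
    ((c : ZMod (7 ^ m)) + a * p.2) * ((d : ZMod (7 ^ m)) + 7 ^ (μ + 1) * b * p.2)⁻¹)

/-- `(x, y) ↦ (-x, -y)`. -/
def ng {m : ℕ} (p : Pt m) : Pt m := (-p.1, -p.2)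

/-- `(x, y) ↦ (y, x)`. -/
def sw {m : ℕ} (p : Pt m) : Pt m := (p.2, p.1)

/-- Even exponent (`μ = 1`): the circle over `[1, 4/3]`. -/
def c1 {m : ℕ} (p : Pt m) : Pt m := trp 1 6 (-1) 1 (-8) (sw p)

/-- Even exponent: the rotation `δ = (7 -10; 5 -7) = S (5 -7; -7 10)` of order two. -/
def dl {m : ℕ} (p : Pt m) : Pt m := trp 1 5 (-1) (-1) 10 (ng (sw p))

/-- Even exponent: the circle over `[2, 8/3]`. -/
def c2 {m : ℕ} (p : Pt m) : Pt m := trp 1 3 (-1) 1 (-16) (sw p)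

/-- Even exponent: the circle over `[13/5, 3]`. -/
def c3 {m : ℕ} (p : Pt m) : Pt m := trp 1 5 (-2) 2 (-39) (sw p)

/-- Even exponent: the circle over `[3, 4]`. -/
def c4 {m : ℕ} (p : Pt m) : Pt m := trp 1 2 (-1) 1 (-24) (sw p)

/-- Odd exponent (`μ = 0`): the circle around `1/2`. -/
def cO {m : ℕ} (p : Pt m) : Pt m := trp 0 2 (-1) 1 (-3) (sw p)

/-- The vertical line: `(x, y) ↦ (-1-x, -y/(1+7^(μ+1) y))`. -/
def dR (μ : ℕ) {m : ℕ} (p : Pt m) : Pt m := trp μ 1 (-1) 0 1 (ng p)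

/-- The map `r` is an involution. -/
def Iv {m : ℕ} (r : Pt m → Pt m) : Prop := ∀ p, r (r p) = p

/-- The maps `r`, `r'` are commuting involutions. -/
def Kl {m : ℕ} (r r' : Pt m → Pt m) : Prop :=
  (∀ p, r (r p) = p) ∧ (∀ p, r' (r' p) = p) ∧ ∀ p, r (r' p) = r' (r p)

/-- The maps `r`, `r'` are involutions which generate a dihedral group of order six. -/
def Dh {m : ℕ} (r r' : Pt m → Pt m) : Prop :=
  (∀ p, r (r p) = p) ∧ (∀ p, r' (r' p) = p) ∧ ∀ p, r (r' (r p)) = r' (r (r' p))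

/-- `φ` has derivative `s` modulo `7`. -/
def Dv {m : ℕ} (s : ℤ) (φ : ZMod (7 ^ m) → ZMod (7 ^ m)) : Prop :=
  ∀ (i : ℕ) (x x' : ZMod (7 ^ m)), (7 : ZMod (7 ^ m)) ^ i ∣ x - x' →
    (7 : ZMod (7 ^ m)) ^ (i + 1) ∣ φ x - φ x' - s * (x - x')

/-- Type `0`: `(x, y) ↦ (φ x, φ' y)` with derivatives `s`, `s'` different from `0` and `1` modulo `7`; type `1`: `(x, y) ↦ (ψ y, ψ' x)` with derivatives prime to `7`. -/
def Ty {m : ℕ} (n : ℕ) (r : Pt m → Pt m) : Prop :=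
  (n = 0 ∧ ∃ (s s' : ℤ) (φ φ' : ZMod (7 ^ m) → ZMod (7 ^ m)), ¬ (7 : ℤ) ∣ s ∧ ¬ (7 : ℤ) ∣ s - 1 ∧ ¬ (7 : ℤ) ∣ s' ∧
    ¬ (7 : ℤ) ∣ s' - 1 ∧ Dv s φ ∧ Dv s' φ' ∧ ∀ p, r p = (φ p.1, φ' p.2)) ∨
  (n = 1 ∧ ∃ (s s' : ℤ) (ψ ψ' : ZMod (7 ^ m) → ZMod (7 ^ m)), ¬ (7 : ℤ) ∣ s ∧ ¬ (7 : ℤ) ∣ s' ∧ Dv s ψ ∧ Dv s' ψ' ∧
    ∀ p, r p = (ψ p.2, ψ' p.1))

/-- TYP. The maps above and their types. Proof. `trp μ M' (trp μ M p) = trp μ (M M') p` for the matrices `M = (a 7^μ b; 7c d)` etc. (denominators are units as `7 ∤ a, d`; `trp` does not change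
under scalars), `sw (trp μ a b c d p) = trp μ d c b a (sw p)`, `ng (trp μ a b c d p) = trp μ a (-b) (-c) d (ng p)`; so all the relations are identities of matrices up to a scalar
(for instance `c1 c1 p = trp (M^s M) p`, `M = (6 -7; 7 -8)`, `M^s = (-8 7; -7 6)`, `M^s M = 1`). Derivatives: `(b + d x)/(a + 7^(μ+1) c x)` has derivative `(ad - 7^(μ+1) bc)/a² ≡ 1/a²` modulo `7`, and
`(c + a y)/(d + 7^(μ+1) b y)` has `1/d²`; `a d ≡ 1`. So `c1`: `(1, 1)`, `dl`: `(-2, -4) = (5, 3)`, `c2`: `(4, 2)`, `c3`: `(2, 4)`, `c4`: `(2, 4)`, `cO`: `(2, 4)`, `ng`, `dR`: `(-1, -1)` (type `0`), `c2 c3`: `(2, 4)` (type `0`), `sw cO`: `(4, 2)` (type `0`);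
composition multiplies derivatives. Model `S5Typ`, `Pool/Agent/Helper71/W5/M_Typ.lean`. -/
def S7Typ : Prop := ∀ m : ℕ,
  (Kl (ng : Pt m → Pt m) sw ∧ Ty 0 (ng : Pt m → Pt m) ∧ Ty 1 (sw : Pt m → Pt m) ∧ Ty 1 (fun p : Pt m => ng (sw p))) ∧
  (Iv (c1 : Pt m → Pt m) ∧ Ty 1 (c1 : Pt m → Pt m)) ∧ (Iv (dl : Pt m → Pt m) ∧ Ty 1 (dl : Pt m → Pt m)) ∧
  (Dh (c2 : Pt m → Pt m) c3 ∧ Ty 1 (c2 : Pt m → Pt m) ∧ Ty 1 (c3 : Pt m → Pt m) ∧ Ty 0 (fun p : Pt m => c2 (c3 p)) ∧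
    Ty 0 (fun p : Pt m => c3 (c2 p)) ∧ Ty 1 (fun p : Pt m => c2 (c3 (c2 p)))) ∧
  (Kl (dR 1 : Pt m → Pt m) c4 ∧ Ty 0 (dR 1 : Pt m → Pt m) ∧ Ty 1 (c4 : Pt m → Pt m) ∧ Ty 1 (fun p : Pt m => dR 1 (c4 p))) ∧
  (Kl (dR 0 : Pt m → Pt m) cO ∧ Ty 0 (dR 0 : Pt m → Pt m) ∧ Ty 1 (cO : Pt m → Pt m) ∧ Ty 1 (fun p : Pt m => dR 0 (cO p))) ∧
  (Dh (sw : Pt m → Pt m) cO ∧ Ty 0 (fun p : Pt m => sw (cO p)) ∧ Ty 0 (fun p : Pt m => cO (sw p)) ∧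
    Ty 1 (fun p : Pt m => sw (cO (sw p)))) ∧
  (∀ p : Pt m, sw (cO p) = trp 0 (-3) 1 (-1) 2 p) ∧ (∀ p : Pt m, cO (sw p) = trp 0 2 (-1) 1 (-3) p)

/-- Functions on the plane with vanishing sums over the translates by multiples of `7^(m-1)`, in both variables. -/
def anti7 (m : ℕ) : Submodule ℂ (Pt m → ℂ) where
  carrier := {F | ∀ p : Pt m, ∑ i ∈ Finset.range 7, F (p.1 + i * 7 ^ (m - 1), p.2) = 0 ∧
    ∑ i ∈ Finset.range 7, F (p.1, p.2 + i * 7 ^ (m - 1)) = 0}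
  add_mem' := by
    intro F F' h h' p
    simp only [Pi.add_apply, Finset.sum_add_distrib, (h p).1, (h p).2, (h' p).1, (h' p).2, add_zero,
      and_self]
  zero_mem' := by intro p; simp
  smul_mem' := by
    intro c F h p
    simp only [Pi.smul_apply, ← Finset.smul_sum, (h p).1, (h p).2, smul_zero, and_self]

/-- Functions of `anti7 m` with `F∘r = e F`. -/
def inv1 {m : ℕ} (r : Pt m → Pt m) (e : ℂ) : Submodule ℂ (Pt m → ℂ) where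
  carrier := {F | F ∈ anti7 m ∧ ∀ p : Pt m, F (r p) = e * F p}
  add_mem' := by
    rintro F F' ⟨h0, h⟩ ⟨h0', h'⟩
    refine ⟨(anti7 m).add_mem h0 h0', fun p => ?_⟩
    simp only [Pi.add_apply, h p, h' p, mul_add]
  zero_mem' := ⟨(anti7 m).zero_mem, by intro p; simp⟩
  smul_mem' := by
    rintro c F ⟨h0, h⟩
    refine ⟨(anti7 m).smul_mem c h0, fun p => ?_⟩
    simp only [Pi.smul_apply, smul_eq_mul, h p]
    ring

/-- Functions of `anti7 m` with `F∘r = e F`, `F∘r' = e' F`. -/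
def inv7 {m : ℕ} (r r' : Pt m → Pt m) (e e' : ℂ) : Submodule ℂ (Pt m → ℂ) where
  carrier := {F | F ∈ anti7 m ∧ ∀ p : Pt m, F (r p) = e * F p ∧ F (r' p) = e' * F p}
  add_mem' := by
    rintro F F' ⟨h0, h⟩ ⟨h0', h'⟩
    refine ⟨(anti7 m).add_mem h0 h0', fun p => ?_⟩
    simp only [Pi.add_apply, (h p).1, (h p).2, (h' p).1, (h' p).2, mul_add, and_self]
  zero_mem' := ⟨(anti7 m).zero_mem, by intro p; simp⟩
  smul_mem' := by
    rintro c F ⟨h0, h⟩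
    refine ⟨(anti7 m).smul_mem c h0, fun p => ?_⟩
    simp only [Pi.smul_apply, smul_eq_mul, (h p).1, (h p).2]
    constructor <;> ring

/-- DIMK. Dimensions by fixed points (`m ≥ 1`). Proof. Use TRQ of W3 (`Pool.Agent.Helper78.W3.S3Trq`, proved: `Pool.Agent.Helper10.W3.hTrq`: the dimension of the image of a projection
`P F (i) = ∑_h c h F (a h i)` is `∑_h c h · #{i | a h i = i}`). `t = 7^(m-1)`, `w 0 = 6/7`, `w i = -1/7` (`1 ≤ i ≤ 6`): `∑_i w_i F(x + i t)` is the projection onto functions with vanishing sums; it commutes with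
composition with maps of type `0`, `1` (derivative a unit modulo `7`, so translates by `i t` go to translates by `s i t`, and `w` is invariant under `i ↦ s i`). For `anti7`: `H = Fin 7 × Fin 7`, total `(6/7)² (7^m)²`. For `inv1`, `inv7`
with the groups `{1, r}`, `{1, r, r', r r'}`, and `{1, r, r', r r', r' r, r r' r}` (dihedral, all signs `1`): `H = group × Fin 7 × Fin 7`, `c = sign w_i w_j / order`, `a (x,y) = g (x + i t, y + j t)`. Fixed points: `g = 1`: `49^m` for `i = j = 0`, else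
none. Type `0`: exactly one (`x ↦ x - φ(x + i t)` is injective: if `x - x' = φ(..) - φ(..)` then `(1 - s)(x - x')` is divisible by `7` times as much as `x - x'`, so `x = x'`), total weight `(∑ w)² = 0`. Type `1`, an involution: `x = ψ(y + j t)`,
`y = ψ'(x + i t)`, `ψ'∘ψ = 1`: `y = ψ'(ψ(y + jt) + it) = y + j t + s' i t`, so there are `7^m` fixed points if `j + s' i ≡ 0` modulo `7`, else none: total `7^m ∑_i w_i w_{-s' i} = (6/7) 7^m`. Model `S5DimK`, `Pool/Agent/Helper7/W5/M_DimK.lean`. -/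
def S7DimK : Prop := ∀ m : ℕ, 1 ≤ m → Module.finrank ℂ (anti7 m) = 36 * 49 ^ (m - 1) ∧
  (∀ (r : Pt m → Pt m) (e : ℤ), Iv r → Ty 1 r → (e = 1 ∨ e = -1) →
    2 * (Module.finrank ℂ (inv1 r (e : ℂ)) : ℤ) = 36 * 49 ^ (m - 1) + e * (6 * 7 ^ (m - 1))) ∧
  (∀ (r r' : Pt m → Pt m) (n n' n'' : ℕ) (e e' : ℤ), Kl r r' → Ty n r → Ty n' r' →
    Ty n'' (fun p => r (r' p)) → (e = 1 ∨ e = -1) → (e' = 1 ∨ e' = -1) →
    4 * (Module.finrank ℂ (inv7 r r' (e : ℂ) (e' : ℂ)) : ℤ) =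
      36 * 49 ^ (m - 1) + (e * n + e' * n' + e * e' * n'') * (6 * 7 ^ (m - 1))) ∧
  (∀ r r' : Pt m → Pt m, Dh r r' → Ty 1 r → Ty 1 r' → Ty 0 (fun p => r (r' p)) → Ty 0 (fun p => r' (r p)) →
    Ty 1 (fun p => r (r' (r p))) →
    Module.finrank ℂ (inv7 r r' 1 1) = 6 * 49 ^ (m - 1) + 3 * 7 ^ (m - 1))

/-- SPLIT. Every function of `anti7 m` (`m ≥ 1`) is the sum of one invariant under `ng` and one invariant under `dR μ`. Proof: write `a F = F∘ng`, `d F = F∘dR μ`, `T F = d (a F)`, so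
`T F (x, y) = F (x + 1, y/(1 + 7^(μ+1) y))` and `T^h F (x, y) = F (x + 7^(m-1), y)` for `h = 7^(m-1)`. All preserve `anti7 m`. `1 - T` is injective on `anti7 m`: `T g = g` implies
`g(x + i 7^(m-1), y) = g(x, y)`, so `7 g = 0`; so it is bijective (finite dimension). Let `(1 - T) f = (1 - d) φ`. From `T a = d`: `(1 - T) a f = a f - d f`; and `f = d a f + (1 - d) φ` gives `d f = a f - (1 - d) φ`, so
`(1 - T)(a f - f) = 0`, `a f = f`; `l = φ - f` satisfies `d l = d φ - a f + (1 - d) φ = l`. Model `S5Split`, `Pool/Agent/Helper99/W5/M_Split.lean`. -/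
def S7Split : Prop := ∀ (μ m : ℕ), 1 ≤ m → ∀ φ ∈ anti7 m, ∃ f ∈ anti7 m, ∃ l ∈ anti7 m,
  (∀ p, f (ng p) = f p) ∧ (∀ p, l (dR μ p) = l p) ∧ ∀ p, f p + l p = φ p

/-- The target for even exponents: `((F1, M), (D, F3))`, the values on the paths `1 → ∞`, `4/3 → 1`, `2 → 4/3`, `3 → 2`. -/
def subE7 (m : ℕ) : Submodule ℂ (((Pt m → ℂ) × (Pt m → ℂ)) × ((Pt m → ℂ) × (Pt m → ℂ))) where
  carrier := {F | (F.1.1 ∈ anti7 m ∧ F.1.2 ∈ anti7 m ∧ F.2.1 ∈ anti7 m ∧ F.2.2 ∈ anti7 m) ∧ ∀ p : Pt m,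
    F.1.1 p - F.1.1 (ng p) + F.1.1 (sw p) - F.1.1 (ng (sw p)) = 0 ∧
    F.1.2 (c1 p) + F.1.2 p = 0 ∧ F.2.1 (dl p) - F.2.1 p = 0 ∧
    F.2.2 p + F.2.2 (c2 p) + F.2.2 (c3 p) + F.2.2 (c2 (c3 p)) + F.2.2 (c3 (c2 p)) + F.2.2 (c2 (c3 (c2 p))) = 0 ∧
    (F.1.1 p + F.1.2 p + F.2.1 p + F.2.2 p) + (F.1.1 (c4 p) + F.1.2 (c4 p) + F.2.1 (c4 p) + F.2.2 (c4 p))
      - (F.1.1 (dR 1 p) + F.1.2 (dR 1 p) + F.2.1 (dR 1 p) + F.2.2 (dR 1 p))
      - (F.1.1 (dR 1 (c4 p)) + F.1.2 (dR 1 (c4 p)) + F.2.1 (dR 1 (c4 p)) + F.2.2 (dR 1 (c4 p))) = 0}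
  add_mem' := by
    rintro F F' ⟨⟨h0, h1, h2, h3⟩, h⟩ ⟨⟨h0', h1', h2', h3'⟩, h'⟩
    refine ⟨⟨(anti7 m).add_mem h0 h0', (anti7 m).add_mem h1 h1', (anti7 m).add_mem h2 h2', (anti7 m).add_mem h3 h3'⟩,
      fun p => ?_⟩
    obtain ⟨a1, a2, a3, a4, a5⟩ := h p
    obtain ⟨b1, b2, b3, b4, b5⟩ := h' p
    simp only [Prod.fst_add, Prod.snd_add, Pi.add_apply]
    exact ⟨by linear_combination a1 + b1, by linear_combination a2 + b2, by linear_combination a3 + b3,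
      by linear_combination a4 + b4, by linear_combination a5 + b5⟩
  zero_mem' := ⟨⟨(anti7 m).zero_mem, (anti7 m).zero_mem, (anti7 m).zero_mem, (anti7 m).zero_mem⟩, by intro p; simp⟩
  smul_mem' := by
    rintro c F ⟨⟨h0, h1, h2, h3⟩, h⟩
    refine ⟨⟨(anti7 m).smul_mem c h0, (anti7 m).smul_mem c h1, (anti7 m).smul_mem c h2, (anti7 m).smul_mem c h3⟩,
      fun p => ?_⟩
    obtain ⟨a1, a2, a3, a4, a5⟩ := h p
    simp only [Prod.smul_fst, Prod.smul_snd, Pi.smul_apply, smul_eq_mul]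
    exact ⟨by linear_combination c * a1, by linear_combination c * a2, by linear_combination c * a3,
      by linear_combination c * a4, by linear_combination c * a5⟩

/-- The target for odd exponents: `(f, l)`, the values on the paths `0 → ∞`, `1/2 → ∞`. -/
def subO7 (m : ℕ) : Submodule ℂ ((Pt m → ℂ) × (Pt m → ℂ)) where
  carrier := {F | F.1 ∈ inv7 (m := m) ng sw 1 1 ∧ F.2 ∈ inv7 (m := m) (dR 0) cO 1 1 ∧ ∀ p : Pt m,
    (F.1 p - F.2 p) + (F.1 (sw (cO p)) - F.2 (sw (cO p))) + (F.1 (cO (sw p)) - F.2 (cO (sw p))) = 0}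
  add_mem' := by
    rintro F F' ⟨h0, h1, h⟩ ⟨h0', h1', h'⟩
    refine ⟨Submodule.add_mem _ h0 h0', Submodule.add_mem _ h1 h1', fun p => ?_⟩
    have a1 := h p
    have b1 := h' p
    simp only [Prod.fst_add, Prod.snd_add, Pi.add_apply]
    linear_combination a1 + b1
  zero_mem' := ⟨Submodule.zero_mem _, Submodule.zero_mem _, by intro p; simp⟩
  smul_mem' := by
    rintro c F ⟨h0, h1, h⟩
    refine ⟨Submodule.smul_mem _ c h0, Submodule.smul_mem _ c h1, fun p => ?_⟩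
    have a1 := h p
    simp only [Prod.smul_fst, Prod.smul_snd, Pi.smul_apply, smul_eq_mul]
    linear_combination c * a1

/-- DIME (from TYP, DIMK, SPLIT). Proof. `V = anti7 m`, `a = 49^(m-1)`, `b = 7^(m-1)`, `dim V = 36 a`. `V1 = {F ∈ V | F - F∘ng + F∘sw - F∘ng∘sw = 0}` is the kernel on `V` of `4` times the projection onto `inv7 ng sw (-1) 1` (of dimension `9 a` by DIMK:
`e n + e' n' + e e' n'' = 0 + 1 - 1`), so `dim V1 = 27 a`; `M`: `dim (inv1 c1 (-1)) = 18 a - 3 b`; `D`: `dim (inv1 dl 1) = 18 a + 3 b`; `V3 = {F ∈ V | sum over the dihedral group = 0}` is the kernel on `V` of `6` times the projection onto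
`inv7 c2 c3 1 1` (the sixth map `c2 c3 c2 = c3 c2 c3`), so `dim V3 = 36 a - (6 a + 3 b) = 30 a - 3 b`. The map `(F1, M, D, F3) ↦ P (F1 + M + D + F3)`, `P F = F + F∘c4 - F∘dR 1 - F∘(dR 1)∘c4`, from `V1 × M × D × V3` to
`inv7 (dR 1) c4 (-1) 1` (dimension `9 a`) is onto: for `φ` in the target take `f + l = φ` by SPLIT (`μ = 1`), `F1 = f` (in `V1`), the others `0`: `P f = P φ - P l = 4 φ`. Its kernel is `subE7 m`, of dimension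
`27 a + 18 a - 3 b + 18 a + 3 b + 30 a - 3 b - 9 a = 84 a - 3 b`. Model `S5DimE`, `Pool/Agent/Helper86/W5/M_DimE.lean`. -/
def S7DimE : Prop := ∀ m : ℕ, 1 ≤ m →
  Module.finrank ℂ (subE7 m) = 84 * 49 ^ (m - 1) - 3 * 7 ^ (m - 1)

/-- DIMO (from TYP, DIMK, SPLIT). Proof. `Vf = inv7 ng sw 1 1`, `Vl = inv7 (dR 0) cO 1 1` have dimension `9·49^(m-1) + 3·7^(m-1)`, `Vp = inv7 sw cO 1 1` has dimension `6·49^(m-1) + 3·7^(m-1)` (DIMK). The map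
`(f, l) ↦ (f - l) + (f - l)∘sw∘cO + (f - l)∘cO∘sw` from `Vf × Vl` to `Vp` (for `f∘sw = f` the function `f + f∘sw∘cO + f∘cO∘sw` is half the sum of `f∘κ` over the dihedral group, so it is invariant under `sw` and `cO`; the same for `l`) is onto: for `φ` in `Vp` let
`f0 - l0 = φ` by SPLIT (`μ = 0`), `f = (f0 + f0∘sw)/2`, `l = (l0 + l0∘cO)/2`; then `f` is in `Vf` (`ng` commutes with `sw`), `l` in `Vl` (`dR 0` commutes with `cO`), and the image is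
`(1/2) ∑_κ (f0 - l0)∘κ = 3 φ`, `κ` in the dihedral group. Its kernel is `subO7 m`. Model `S5DimO`, `Pool/Agent/Helper29/W5/M_DimO.lean`. -/
def S7DimO : Prop := ∀ m : ℕ, 1 ≤ m →
  Module.finrank ℂ (subO7 m) = 12 * 49 ^ (m - 1) + 3 * 7 ^ (m - 1)

/-- E1 (from EDG, PLA, TYP, REP, FAR of CV). Even exponent `n = 2k`, `k ≥ 2`, plane `m = k - 1`, `μ = 1`. `F1(g) = G(g∞) - G(g1)`, `M(g) = G(g1) - G(g(4/3))`, `D(g) = G(g(4/3)) - G(g2)`, `F3(g) = G(g2) - G(g3)` for `g = (a 7b; 7c d)`. Proof.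
(i) `(1 i7^(k-1); 0 1) g` has the coordinates `(x + i (d/a) 7^(k-2), y)` (take `g` standard, `a = 1`, `d ≡ 1` modulo `7`), `(1 0; i7^(k-1) 1) g` has `(x, y + i (a/d) 7^(k-2))`: all four are in `anti7`. (ii) Reflections. Let `ρ` be an integral
matrix of determinant `-1` and `ρ' = * ρ` or `ρ' = b ρ`, `b = (0 1; 1 0)`, be of the form `(a 7b; 7c d)`; then `g ρ = * (* g *) ρ'`, resp. `g ρ = b (b g b) ρ'`, where `* g *` has coordinates `ng (x,y)`, `b g b` has `sw (x,y)`,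
and `G∘* ≈ G`, `G∘b ≈ -G` (`b = -S *`). So, for a path `π`, the value of `G` at `g ρ π` is `± F_π(..)`: for `* = (-1 0; 0 1)`: `F_π(ng p)`; `b`: `-F_π(sw p)`; `(7 -8; 6 -7)`: `-F_π(c1 p)`; `(7 -16; 3 -7)`:
`-F_π(c2 p)`; `(14 -39; 5 -14)`: `-F_π(c3 p)`; `(7 -24; 2 -7)`: `-F_π(c4 p)`; `(-1 7; 0 1)`: `F_π(dR 1 p)`; and for the rotation `δ = (7 -10; 5 -7) = S (5 -7; -7 10)`: `g δ = S (S⁻¹ g S) (5 -7; -7 10)`, `S⁻¹ g S` has coordinates `ng (sw p)`,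
`G∘S ≈ -G`: `-F_π(dl p)`. First equation of `subE7`: the square `∞, 1, 0, -1`: with `{u,v} = G(gu) - G(gv)`: `F1(p) = {∞,1}`, `F1(ng p) = {∞,-1}`, `F1(sw p) = -{0,1}`, `F1(ng (sw p)) = -{0,-1}`. Second: `(7 -8; 6 -7)` fixes `1` and `4/3`: `M(p) = -M(c1 p)`.
Third: `δ` exchanges `2` and `4/3`: `{2,4/3} = -D(dl p)`, so `D(dl p) = D(p)`. Fourth: hexagon; write `ρ2 = (7 -16; 3 -7)` (fixes `2`), `ρ3 = (14 -39; 5 -14)` (fixes `3`), `ρ2 ρ3 ρ2 = - ρ3 ρ2 ρ3`; `F3(p) = {2,3}`, `F3(c3 p) = {3, ρ3 2}`, `F3(c2 (c3 p)) = {ρ3 2, ρ3ρ2 3}`,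
`F3(c3 (c2 (c3 p))) = {ρ3ρ2 3, ρ3ρ2ρ3 2}`, `F3(c3 (c2 p)) = {ρ2ρ3 2, ρ2 3}`, `F3(c2 p) = {ρ2 3, 2}`; the hexagon has the cusps `2, 3, ρ3 2 = 11/4, ρ3ρ2 3 = 8/3, ρ2ρ3 2 = 13/5, ρ2 3 = 5/2`, so these are `{2,3}, {3,11/4}, {11/4,8/3}, {8/3,13/5},
{13/5,5/2}, {5/2,2}` and the sum is zero (`c3 c2 c3 = c2 c3 c2`). Fifth: `S = F1 + M + D + F3 = {∞,3}`; square `∞, 3, 7/2, 4`:
`S(c4 p) = -{7/2,3}`, `S(dR p) = {∞,4}`, `S(dR (c4 p)) = -{7/2,4}` (`(7 -24; 2 -7)` fixes `3, 4`, exchanges `∞, 7/2`; `(-1 7; 0 1)` exchanges `3, 4`). (iii) Injectivity: let the four functions be `0` and write `v ~ w` if `G(gv) = G(gw)` for all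
`g = (a 7b; 7c d)`; this relation is invariant under these `g`, `*`, `b` and the matrices above. `∞ ~ 1 ~ 4/3 ~ 2 ~ 3`; `*`: `∞ ~ -1, -2, -3`; `b`: `0 ~ ±1 ~ ±1/2 ~ ±1/3`; `(-1 7; 0 1)`: `∞ ~ 4`, so `∞ ~ ±4`; `δ`: `1 ↦ 3/2`, `4/3 ↦ 2`, so `3/2 ~ 2`,
`±3/2`, `b`: `±2/3`; `(7 -16; 3 -7)`: `2 ↦ 2`, `3 ↦ 5/2`, so `±5/2`. So the cusps of the matrices of `rep49` are all equivalent; REP and FAR. Model `S5E1`, `Pool/Agent/Helper34/W5/M_E1.lean`. -/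
def S7E1 : Prop := ∀ (k : ℕ) (G : ℤ → ℤ → ℂ), 2 ≤ k → BalE7 k G →
  ((((fun p : Pt (k - 1) => edge7 1 1 0 1 1 G p.1 p.2), (fun p : Pt (k - 1) => edge7 1 1 1 4 3 G p.1 p.2)),
    ((fun p : Pt (k - 1) => edge7 1 4 3 2 1 G p.1 p.2), (fun p : Pt (k - 1) => edge7 1 2 1 3 1 G p.1 p.2))) ∈
    subE7 (k - 1)) ∧
  ((∀ x y : ZMod (7 ^ (k - 1)), edge7 1 1 0 1 1 G x y = 0 ∧ edge7 1 1 1 4 3 G x y = 0 ∧
    edge7 1 4 3 2 1 G x y = 0 ∧ edge7 1 2 1 3 1 G x y = 0) → EqC G 0)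

/-- O1 (from EDG, PLA, TYP, FAR of CV). Odd exponent `n = 2k+1`, `k ≥ 1`, plane `m = k`, `μ = 0`. `f(g) = G(g∞) - G(g0)`, `l(g) = G(g∞) - G(g½)` for `g` in `Γ₀(7)`. Proof. (i) `anti7` as in E1 with `(1 i7^(k-1); 0 1) g`,
`(1 0; i7^k 1) g`. (ii) `b = (0 1; 7 0)` (`b = W *` up to sign, `W = (0 -1; 7 0)`), `b⁻¹ g b` has coordinates `sw (x,y)`, `G∘b ≈ -G`; `g ρ = b (b⁻¹ g b) (b⁻¹ ρ)`. `f(ng p) = f(p)`, `f(sw p) = f(p)` (`b` exchanges `0, ∞`). `l`: `(-1 1; 0 1)`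
fixes `∞` and `½`: `l(dR 0 p) = l(p)`; `(7 -3; 14 -7) = b (2 -1; 7 -3)` exchanges `∞` and `½`: `l(cO p) = l(p)`. `h = f - l = G(g½) - G(g0)`: the rotation `α = (2 -1; 7 -3)` of order three maps `0 ↦ 1/3 ↦ 1/2 ↦ 0`: `h(p) + h(p α) + h(p α²) = 0`, `p α = cO (sw p)`,
`p α² = p (-3 1; -7 2) = sw (cO p)` (TYP). (iii) Injectivity: if `f = l = 0` then (notation of E1, for `g` in `Γ₀(7)`) `∞ ~ 0 ~ ½`, `*`: `-½ ~ 0`, `1 ~ 0` (translation by `1` of `∞ ~ 0`); every `g` in `SL₂(ℤ)` is `g' ρ` or `g' ρ S` with `g'` in `Γ₀(7)` and `ρ` one of `1`,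
`(1 0; 1 1)`, `(1 0; 2 1)`, `(1 0; -2 1)` (bottom row modulo `7` up to scalars: `(0:1), (1:0), (1:1), (1:-1), (2:1), (1:-2) = (3:1), (-2:1), (1:2) = (4:1)`), whose cusps `ρ0 = 0`, `ρ∞ = ∞, 1, ½, -½` are equivalent: FAR. Model `S5O1`. -/
def S7O1 : Prop := ∀ (k : ℕ) (G : ℤ → ℤ → ℂ), 1 ≤ k → BalO7 k G →
  ((fun p : Pt k => edge7 0 1 0 0 1 G p.1 p.2), (fun p : Pt k => edge7 0 1 0 1 2 G p.1 p.2)) ∈ subO7 k ∧
  ((∀ x y : ZMod (7 ^ k), edge7 0 1 0 0 1 G x y = 0 ∧ edge7 0 1 0 1 2 G x y = 0) → EqC G 0)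

/-- UB from BAL, E1, O1, DIME, DIMO. For `n = 2k ≥ 4` compose `G ↦` (balanced form) `↦ ((F1, M), (D, F3))`, a linear map into `subE7 (k-1)`, of dimension `84·49^(k-2) - 3·7^(k-2) = dd7 n`; for `n = 2k+1 ≥ 3` the map to
`(f, l)` in `subO7 k`, of dimension `dd7 n`. Model: `S5UBof`, `Pool/Agent/Helper62/W5/M_UBof.lean`. -/
def S7UBof : Prop := S7Bal → S7E1 → S7O1 → S7DimE → S7DimO → S7UB

/-- B3b from EV and L2 (see the docstring of `S7B3b`). -/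
def S7B3bOf : Prop := SPEv → S7L2 → S7B3b

end Pool.Agent.Helper76.S7
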