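import Pool.Agent.Helper14.W5.StB

/-!
# Project W7 (level `7^n`): dimensions and the statements of the dimension chain

`SymP`, `NewSymP`, `NSP`, `evLP`, `SPHk`, ..., `SPB3a` of project W5 are for every prime `p` and are used as they are (`p = 7`).
-/

set_option autoImplicit false

namespace Pool.Agent.Helper76.S7

open Pool.Agent.Helper14.CV (Homog EqC act Tl StFar StFex)
open Pool.Agent.Helper28.WK (SymP Tw evw Ok)
open Pool.Agent.Helper14.W5

/-- The bound for the dimension of the new symbols of level `7^n` with `W = -1`, `* = +1` (`1` for `n = 2`). -/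
def dd7 (n : ℕ) : ℕ :=
  if n ≤ 1 then 0
  else if n = 2 then 1
  else if n % 2 = 1 then 12 * 49 ^ (n / 2 - 1) + 3 * 7 ^ (n / 2 - 1)
  else 84 * 49 ^ (n / 2 - 2) - 3 * 7 ^ (n / 2 - 2)

/-- `1 + ∑_{m ≤ n} dd7 m`; `DD7 2 = 2`, `DD7 (2k) = 2 t²`, `DD7 (2k+1) = 14 t² + 3 t`, `t = 7^(k-1)`. -/
def DD7 (n : ℕ) : ℕ := 1 + ∑ m ∈ Finset.range (n + 1), dd7 m

/-- L2. Level 49: symbols with `W = -1`, `* = 1` are determined up to constants by two values. In the coordinate `K2(p, q) = K(p, 7q)`: `K2` is a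
symbol for the group `Γ'` of all `(a b; c d)` of determinant one with `7 ∣ b`, `7 ∣ c`, with `K2∘S ≈ -K2` (`S = (0 -1; 1 0)`), `K2∘* ≈ K2`, and the hypotheses are `K2(∞) = K2(1) = K2(2)`;
let this value be `0` (subtract a constant). `K2∘* = K2` exactly (value at `∞`), `K2∘S = -K2` exactly (`S 1 = -1`, `K2(-1) = K2(1) = 0`); so `K2(0) = 0`, `K2(±1/2) = 0`. With `b = (0 1; 1 0)`, `K2∘b = -K2`. The element
`(7 -8; 6 -7) = b (6 -7; 7 -8)` fixes `1` and `4/3`: `K2∘(..) = -K2` (constant zero by the value at `1`), so `K2(4/3) = 0`. `δ = (7 -10; 5 -7) = S (5 -7; -7 10)` maps `1 ↦ 3/2`, `2 ↦ 4/3`: `K2∘δ = -K2 + c`, `K2(4/3) = -K2(2) + c` gives `c = 0`, so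
`K2(3/2) = 0`. `K2(z + 7) = K2(z)` (the constant is zero by the value at `∞`). `c2 = (7 -16; 3 -7)`, which is `b (3 -7; 7 -16)`, fixes `2`: `K2∘c2 = -K2`. `c3 = (14 -39; 5 -14) = b (5 -14; 14 -39)` fixes `3`: `K2∘c3 = -K2 + 2u`, `u = K2(3)`. As
`c2 c3 c2 = - c3 c2 c3`: `-K2 - 2u = -K2 + 4u`, so `u = 0`. `K2(4) = K2(-3) = 0`, `K2(±1/3) = 0`, `K2(±2/3) = -K2(±3/2) = 0`, `K2(5/2) = K2(c2 3) = 0`, `K2(-5/2) = 0`. So `K2` vanishes at the twenty cusps
`∞, 0, ±1, ±2, ±3, ±4, ±1/2, ±1/3, ±2/3, ±3/2, ±5/2`; FAR with the 56 classes `rep49` (statement `S7Rep` in `StC.lean`: every `g` of `SL₂(ℤ)` is `g' m` with `g'` in `Γ'` and `m` in `rep49`, whose two cusps are in the list; `K2∘g' = K2 + c(g')`). -/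
def S7L2 : Prop := ∀ K : ℤ → ℤ → ℂ, SymP 7 0 2 K → EqC (act 0 (-1) 49 0 K) (-K) → EqC (act (-1) 0 0 1 K) K →
  K 1 0 = K 1 7 → K 1 7 = K 2 7 → EqC K 0

/-- B3b (from EV and L2). Level 49: the values at words of all symbols lie in a space of dimension two. `G ↦ H = (G - G∘W)/2`, then `H⁺ = (H + H∘*)/2` has the same values at words (EV, as in `S5B3b`), and `H⁺` satisfies the
hypotheses of L2 (matrix identities `W W = -49`, `* W = -W *`). The linear map `G ↦ (H⁺(1,0) - H⁺(1,7), H⁺(2,7) - H⁺(1,7))` from the symbols to `ℂ²` has its kernel in the kernel of `evLP 7`, so `evLP 7` factors through it (a linear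
map which vanishes on the kernel of `Θ : X → ℂ²` is `ψ ∘ Θ`), `e1 = ψ (1,0)`, `e2 = ψ (0,1)`. -/
def S7B3b : Prop := ∃ e1 e2 : List ℕ → ℂ, ∀ G : ℤ → ℤ → ℂ, SymP 7 0 2 G → ∃ x y : ℂ,
  ∀ ls : List ℕ, Ok 7 ls → evw 1 ls G = x * e1 ls + y * e2 ls

/-- UB. The space of new symbols modulo constants has dimension at most `dd7 n` (`n ≥ 3`). -/
def S7UB : Prop := ∀ n : ℕ, 3 ≤ n → ∃ Θ : NSP 7 n →ₗ[ℂ] (Fin (dd7 n) → ℂ),
  ∀ G : NSP 7 n, Θ G = 0 → EqC (G : ℤ → ℤ → ℂ) 0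

/-- LB. The image of `evLP 7` has dimension at least `DD7 n` (`n ≥ 2`). -/
def S7LB : Prop := ∀ n : ℕ, 2 ≤ n → ∃ G : Fin (DD7 n) → (ℤ → ℤ → ℂ), (∀ k, SymP 7 0 n (G k)) ∧
  LinearIndependent ℂ (fun k => evLP 7 (G k))

/-- Core: a new symbol of level `7^n`, `n ≥ 2`, with `W = -1`, `* = +1` which is killed by all words is constant. -/
def S7Core : Prop := ∀ (n : ℕ) (G : ℤ → ℤ → ℂ), 2 ≤ n → NewSymP 7 n G →
  (∀ ls : List ℕ, Ok 7 ls → evw 1 ls G = 0) → EqC G 0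

/-- CORE (`n ≥ 3`): proof from B3a, B3b, UB, LB as in project W5 (`S5CoreOf`, `Pool.Agent.Helper71.W5.hCoreOf`); base of the induction: level `2`, where `finrank ≤ 2` by B3b and
`DD7 2 = 2`. For `n = 2`: the space `X` of symbols of level `49` with `W ≈ -1`, `* ≈ 1` has a linear map to `ℂ²` whose kernel consists of constants (L2); by EV every value of `evLP 7` on symbols of level `49` is one on `X`
(`H⁺` of B3b), and `evLP 7` vanishes on constants; LB for `n = 2` (`DD7 2 = 2`) says that the image of `X` under `evLP 7` has dimension at least two, so `evLP 7` is injective on `X` modulo constants, and `NewSymP 7 2 G` implies `G ∈ X`. -/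
def S7CoreOf : Prop := SPEv → SPB3a → S7L2 → S7B3b → S7UB → S7LB → S7Core

/-- Small values (sanity). -/
theorem dd7_small : dd7 2 = 1 ∧ dd7 3 = 15 ∧ dd7 4 = 81 ∧ dd7 5 = 609 ∧ dd7 6 = 4095 ∧
    DD7 2 = 2 ∧ DD7 3 = 17 ∧ DD7 4 = 98 ∧ DD7 5 = 707 := by
  refine ⟨?_, ?_, ?_, ?_, ?_, ?_, ?_, ?_, ?_⟩ <;> simp [dd7, DD7, Finset.sum_range_succ]

end Pool.Agent.Helper76.S7
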