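import Pool.Agent.Helper10.CV.M_N1
import Pool.Agent.Helper10.W3.M_Trq
import Pool.Agent.Helper2.S7.M_L2
import Pool.Agent.Helper22.S7.M_Rep
import Pool.Agent.Helper29.S7.M_UBof
import Pool.Agent.Helper33.S7.M_Edg
import Pool.Agent.Helper36.S7.M_Split
import Pool.Agent.Helper37.S7.M_DimE
import Pool.Agent.Helper37.W5.M_PB3a
import Pool.Agent.Helper38.CV.M_Far
import Pool.Agent.Helper42.S7.M_Typ
import Pool.Agent.Helper43.S7.M_PlA
import Pool.Agent.Helper43.W5.M_PHkW
import Pool.Agent.Helper47.S7.M_O1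
import Pool.Agent.Helper66.S7.M_Bal
import Pool.Agent.Helper69.W5.M_PHk
import Pool.Agent.Helper7.W5.M_PAvg
import Pool.Agent.Helper71.S7.M_DimK
import Pool.Agent.Helper74.S7.M_PlU
import Pool.Agent.Helper8.S7.M_CoreOf
import Pool.Agent.Helper8.W5.M_PEv
import Pool.Agent.Helper83.W5.M_PHkS
import Pool.Agent.Helper84.S7.M_B3bOf
import Pool.Agent.Helper86.W5.M_PCom
import Pool.Agent.Helper88.S7.M_DimO
import Pool.Agent.Helper9.S7.M_E1
import Pool.Agent.Helper92.W5.M_PMon

/-!
# Project W7: the upper bound and level 49, assembled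
-/

set_option autoImplicit false

namespace Pool.Agent.Helper76.S7

open Pool.Agent.Helper14.W5

theorem ev : SPEv := by
  have phk := Pool.Agent.Helper69.W5.hPHk Pool.Agent.Helper10.CV.hN1
  exact Pool.Agent.Helper8.W5.hPEv (Pool.Agent.Helper83.W5.hPHkS phk) (Pool.Agent.Helper43.W5.hPHkW phk)

theorem b3a : SPB3a :=
  Pool.Agent.Helper37.W5.hPB3a Pool.Agent.Helper7.W5.hPAvg Pool.Agent.Helper92.W5.hPMon
    Pool.Agent.Helper86.W5.hPCom ev

theorem ub7 (rep : S7Rep) : S7UB := by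
  have edg := Pool.Agent.Helper33.S7.hEdg Pool.Agent.Helper43.S7.hPlA Pool.Agent.Helper74.S7.hPlU
  have typ := Pool.Agent.Helper42.S7.hTyp
  have dimK := Pool.Agent.Helper71.S7.hDimK Pool.Agent.Helper10.W3.hTrq
  have split := Pool.Agent.Helper36.S7.hSplit
  have dimE := Pool.Agent.Helper37.S7.hDimE typ dimK split
  have dimO := Pool.Agent.Helper88.S7.hDimO typ dimK split
  have e1 := Pool.Agent.Helper9.S7.hE1 edg Pool.Agent.Helper43.S7.hPlA typ rep Pool.Agent.Helper38.CV.hFar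
  have o1 := Pool.Agent.Helper47.S7.hO1 edg Pool.Agent.Helper43.S7.hPlA typ Pool.Agent.Helper38.CV.hFar
  exact Pool.Agent.Helper29.S7.hUBof Pool.Agent.Helper66.S7.hBal e1 o1 dimE dimO

theorem l2 (rep : S7Rep) : S7L2 := Pool.Agent.Helper2.S7.hL2 rep Pool.Agent.Helper38.CV.hFar

theorem b3b (rep : S7Rep) : S7B3b := Pool.Agent.Helper84.S7.hB3bOf ev (l2 rep)

/-- The core for the prime 7 from the lower bound. -/
theorem coreOf (rep : S7Rep) (lb : S7LB) : S7Core :=
  Pool.Agent.Helper8.S7.hCoreOf ev b3a (l2 rep) (b3b rep) (ub7 rep) lb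

/-- The upper bound for the prime 7. -/
theorem hUB7 : S7UB := ub7 Pool.Agent.Helper22.S7.hRep

/-- Level 49, even weights. -/
theorem hL2c : S7L2 := l2 Pool.Agent.Helper22.S7.hRep

/-- Level 49, second part. -/
theorem hB3bc : S7B3b := b3b Pool.Agent.Helper22.S7.hRep

/-- The core for the prime 7 from the lower bound alone. -/
theorem coreOfLB (lb : S7LB) : S7Core := coreOf Pool.Agent.Helper22.S7.hRep lb

end Pool.Agent.Helper76.S7
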